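import Pool.Agent.Helper77.K3.Defs

/-!
# One end

If `Ω ≠ ℝ³` then `Γ` is one-ended: the complement of `Ω` together with infinity is connected.
-/

set_option autoImplicit false

open Set Filter Topology Pool.Agent.Helper77.K3

namespace Pool.Agent.Helper80.K3

noncomputable section

/-! ## Finiteness -/

theorem fin_meet (D : KData) {C C' : Set E} (hC : IsCompact C) (hC' : IsCompact C')
    (h : C ⊆ D.Ω) (h' : C' ⊆ D.Ω) : {g : D.Γ | ∃ x ∈ C, (g : Aff3) x ∈ C'}.Finite := by
  have := D.proper (C ∪ C') (union_subset h h') (hC.union hC')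
  refine ((this.preimage (Subtype.val_injective.injOn)).subset ?_)
  rintro g ⟨x, hx, hgx⟩
  exact ⟨g.2, (g : Aff3) x, ⟨x, Or.inl hx, rfl⟩, Or.inr hgx⟩

theorem inv_apply_self (g : Aff3) (x : E) : (g⁻¹ : Aff3) (g x) = x := by
  show (g⁻¹ * g) x = x
  rw [inv_mul_cancel]; rfl

theorem apply_inv_self (g : Aff3) (x : E) : g ((g⁻¹ : Aff3) x) = x := by
  show (g * g⁻¹) x = x
  rw [mul_inv_cancel]; rfl

theorem cont (g : Aff3) : Continuous g := AffineEquiv.continuous_of_finiteDimensional g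

/-- A bump function. -/
theorem exists_bump (D : KData) : ∃ (ψ : E → ℝ) (C : Set E), Continuous ψ ∧ IsCompact C ∧
    C ⊆ D.Ω ∧ (∀ x, 0 ≤ ψ x) ∧ (∀ x, ψ x ≠ 0 → x ∈ C) ∧
    ∀ x ∈ D.Ω, ∃ γ ∈ D.Γ, 0 < ψ (γ x) := by
  obtain ⟨F, hF, hFc, hcov⟩ := D.cocompact
  obtain ⟨k, k_comp, k_closed, sk, kt⟩ := exists_compact_closed_between hFc D.isOpen hF
  obtain ⟨f, hf0, hf1, hf⟩ := exists_continuous_zero_one_of_isCompact' hFc
    isOpen_interior.isClosed_compl (disjoint_compl_right_iff_subset.mpr sk)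
  refine ⟨f, k, f.continuous, k_comp, kt, fun x => (hf x).1, ?_, ?_⟩
  · intro x hx
    by_contra hk
    exact hx (hf0 (fun h => hk (interior_subset h)))
  · intro x hx
    obtain ⟨γ, hγ, h⟩ := hcov x hx
    exact ⟨γ, hγ, by rw [hf1 h]; simp⟩

/-! ## Sums over the group -/

/-- The sum of the translates of `ψ` over `A`. -/
def NN (D : KData) (ψ : E → ℝ) (A : Set D.Γ) (x : E) : ℝ :=
  ∑ᶠ g : D.Γ, A.indicator (fun g : D.Γ => ψ (((g : Aff3)⁻¹ : Aff3) x)) g

section

variable {D : KData} {ψ : E → ℝ} {C : Set E} (hψ : Continuous ψ) (hC : IsCompact C)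
  (hCΩ : C ⊆ D.Ω) (h0 : ∀ x, 0 ≤ ψ x) (hs : ∀ x, ψ x ≠ 0 → x ∈ C)

include hC hCΩ hs in
theorem supp_finite (A : Set D.Γ) {x : E} (hx : x ∈ D.Ω) :
    (Function.support (A.indicator (fun g : D.Γ => ψ (((g : Aff3)⁻¹ : Aff3) x)))).Finite := by
  refine (fin_meet D hC (isCompact_singleton (x := x)) hCΩ (by simpa using hx)).subset ?_
  intro g hg
  have h1 : ψ (((g : Aff3)⁻¹ : Aff3) x) ≠ 0 := by
    intro h
    apply hg
    by_cases hA : g ∈ A <;> simp [hA, h]
  exact ⟨_, hs _ h1, by rw [apply_inv_self]; rfl⟩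

include hψ hC hCΩ hs in
theorem NN_continuousOn (A : Set D.Γ) : ContinuousOn (NN D ψ A) D.Ω := by
  rw [continuousOn_iff_continuous_restrict]
  have : Continuous (fun x : D.Ω => ∑ᶠ g : D.Γ,
      A.indicator (fun g : D.Γ => ψ (((g : Aff3)⁻¹ : Aff3) x)) g) := ?_
  · exact this
  refine continuous_finsum (fun g => ?_) ?_
  · by_cases hA : g ∈ A
    · simp only [indicator_of_mem hA]
      exact hψ.comp ((cont _).comp continuous_subtype_val)
    · simp only [indicator_of_notMem hA]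
      exact continuous_const
  · intro x
    obtain ⟨B, hB, hBx⟩ := (compact_basis_nhds (x : E)).mem_iff.1 (D.isOpen.mem_nhds x.2)
    refine ⟨Subtype.val ⁻¹' B, continuous_subtype_val.continuousAt.preimage_mem_nhds hB.1, ?_⟩
    refine (fin_meet D hC hB.2 hCΩ hBx).subset ?_
    rintro g ⟨y, hy, hyB⟩
    have h1 : ψ (((g : Aff3)⁻¹ : Aff3) y) ≠ 0 := by
      intro h
      apply hy
      by_cases hA : g ∈ A <;> simp [hA, h]
    exact ⟨_, hs _ h1, by rw [apply_inv_self]; exact hyB⟩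

include hC hCΩ h0 hs in
theorem NN_pos (A : Set D.Γ) {x : E} (hx : x ∈ D.Ω) {g : D.Γ} (hg : g ∈ A)
    (h : ψ (((g : Aff3)⁻¹ : Aff3) x) ≠ 0) : 0 < NN D ψ A x := by
  refine finsum_pos' (fun g' => ?_) ⟨g, ?_⟩ (supp_finite hC hCΩ hs A hx)
  · by_cases hA : g' ∈ A <;> simp [hA, h0]
  · rw [indicator_of_mem hg]
    exact lt_of_le_of_ne (h0 _) (Ne.symm h)

theorem NN_zero (D : KData) (ψ : E → ℝ) (A : Set D.Γ) {x : E}
    (h : ∀ g ∈ A, ψ (((g : Aff3)⁻¹ : Aff3) x) = 0) : NN D ψ A x = 0 := by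
  unfold NN
  apply finsum_eq_zero_of_forall_eq_zero
  intro g
  by_cases hA : g ∈ A
  · rw [indicator_of_mem hA, h g hA]
  · rw [indicator_of_notMem hA]

theorem NN_univ (D : KData) (ψ : E → ℝ) (A : Set D.Γ) {x : E}
    (h : ∀ g ∉ A, ψ (((g : Aff3)⁻¹ : Aff3) x) = 0) : NN D ψ A x = NN D ψ univ x := by
  unfold NN
  apply finsum_congr
  intro g
  rw [indicator_univ]
  by_cases hA : g ∈ A
  · rw [indicator_of_mem hA]
  · rw [indicator_of_notMem hA, h g hA]

end

/-! ## Integer valued functions -/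

theorem const_int {P : Set E} (hP : IsPreconnected P) {f : E → ℝ} (hf : ContinuousOn f P)
    (hZ : ∀ x ∈ P, ∃ n : ℤ, f x = n) {x y : E} (hx : x ∈ P) (hy : y ∈ P) : f x = f y := by
  have hd : IsDiscrete (range ((↑) : ℤ → ℝ)) := by
    rw [isDiscrete_iff_discreteTopology]
    exact (Int.isClosedEmbedding_coe_real.isEmbedding.toHomeomorph.discreteTopology_iff).1
      inferInstance
  refine hP.constant_of_mapsTo hd hf ?_ hx hy
  intro z hz
  obtain ⟨n, hn⟩ := hZ z hz
  exact ⟨n, hn.symm⟩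

theorem far_preconnected {R : ℝ} (hR : 0 < R) : IsPreconnected {x : E | R < ‖x‖} := by
  have hrk : 1 < Module.rank ℝ E := by
    rw [rank_fin_fun]; norm_num
  have h1 : IsPreconnected (Ioi R ×ˢ Metric.sphere (0 : E) 1) :=
    isPreconnected_Ioi.prod (isPreconnected_sphere hrk 0 1)
  have h2 := h1.image (fun p : ℝ × E => p.1 • p.2) (by fun_prop)
  convert h2 using 1
  ext x
  simp only [mem_setOf_eq, mem_image, mem_prod, mem_Ioi, mem_sphere_iff_norm, sub_zero,
    Prod.exists]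
  constructor
  · intro h
    have h0 : ‖x‖ ≠ 0 := by linarith
    refine ⟨‖x‖, ‖x‖⁻¹ • x, ⟨h, ?_⟩, ?_⟩
    · rw [norm_smul, norm_inv, norm_norm, inv_mul_cancel₀ h0]
    · rw [smul_smul, mul_inv_cancel₀ h0, one_smul]
  · rintro ⟨r, y, ⟨hr, hy⟩, rfl⟩
    rw [norm_smul, hy, mul_one, Real.norm_eq_abs, abs_of_pos (hR.trans hr)]
    exact hr

/-! ## The main argument -/

theorem oneend (hl : S_lift) (h3 : S_F3) (h1 : S_P1) (hK : S_K) : S_end := by
  intro D _ A hA
  obtain ⟨ψ, C, hψ, hC, hCΩ, h0, hs, hcov⟩ := exists_bump D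
  obtain ⟨hKcl, hKinv⟩ := hK D
  -- the finite set of bad elements
  have hS : {s : D.Γ | ∃ x ∈ C, (s : Aff3) x ∈ C}.Finite := fin_meet D hC hC hCΩ hCΩ
  set B0 : Set D.Γ := ⋃ s ∈ {s : D.Γ | ∃ x ∈ C, (s : Aff3) x ∈ C}, {a | a ∈ A ∧ a * s ∉ A}
    with hB0
  have hB0f : B0.Finite := hS.biUnion fun s _ => hA s
  set C1 : Set E := ⋃ g ∈ B0, (g : Aff3) '' C with hC1
  have hC1c : IsCompact C1 := hB0f.isCompact_biUnion fun g _ => hC.image (cont _)
  have hC1Ω : C1 ⊆ D.Ω := by
    intro x hx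
    simp only [hC1, mem_iUnion] at hx
    obtain ⟨g, hg, y, hy, rfl⟩ := hx
    exact D.inv _ g.2 _ (hCΩ hy)
  have hKC1 : ∀ x ∈ D.K, x ∉ C1 := fun x hx h => hx (hC1Ω h)
  -- facts about the sums
  have hpos : ∀ x ∈ D.Ω, 0 < NN D ψ univ x := by
    intro x hx
    obtain ⟨γ, hγ, h⟩ := hcov x hx
    refine NN_pos hC hCΩ h0 hs univ hx (g := (⟨γ, hγ⟩ : D.Γ)⁻¹) (mem_univ _) ?_
    have : ((((⟨γ, hγ⟩ : D.Γ)⁻¹ : D.Γ) : Aff3)⁻¹ : Aff3) = γ := by simp
    rw [this]
    exact h.ne'
  have hNK : ∀ x ∈ D.K, NN D ψ A x = 0 := by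
    intro x hx
    apply NN_zero
    intro g _
    by_contra h
    have h2 := hCΩ (hs _ h)
    have h3 : ((g : Aff3)⁻¹ : Aff3) x ∈ D.K := (hKinv _ (D.Γ.inv_mem g.2) x).2 hx
    exact h3 h2
  have hoff : ∀ x ∉ C1, ∀ g ∈ A, ψ (((g : Aff3)⁻¹ : Aff3) x) ≠ 0 → ∀ g' ∉ A,
      ψ (((g' : Aff3)⁻¹ : Aff3) x) = 0 := by
    intro x hx g hg hgx g' hg'
    by_contra hgx'
    apply hx
    simp only [hC1, mem_iUnion]
    refine ⟨g, ?_, ((g : Aff3)⁻¹ : Aff3) x, hs _ hgx, apply_inv_self _ _⟩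
    simp only [hB0, mem_iUnion]
    refine ⟨g⁻¹ * g', ⟨((g' : Aff3)⁻¹ : Aff3) x, hs _ hgx', ?_⟩, hg, ?_⟩
    · have : ((g⁻¹ * g' : D.Γ) : Aff3) (((g' : Aff3)⁻¹ : Aff3) x) = ((g : Aff3)⁻¹ : Aff3) x := by
        show ((g : Aff3)⁻¹ : Aff3) ((g' : Aff3) (((g' : Aff3)⁻¹ : Aff3) x)) = _
        rw [apply_inv_self]
      rw [this]
      exact hs _ hgx
    · rwa [mul_inv_cancel_left]
  -- the function `u`
  set u : E → ℝ := fun x => NN D ψ A x / NN D ψ univ x with hu
  have huc : ContinuousOn u D.Ω :=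
    (NN_continuousOn hψ hC hCΩ hs A).div (NN_continuousOn hψ hC hCΩ hs univ)
      fun x hx => (hpos x hx).ne'
  have hu01 : ∀ x ∉ C1, u x = 0 ∨ u x = 1 := by
    intro x hx
    by_cases hxΩ : x ∈ D.Ω
    · by_cases h : ∃ g ∈ A, ψ (((g : Aff3)⁻¹ : Aff3) x) ≠ 0
      · obtain ⟨g, hg, hgx⟩ := h
        right
        simp only [hu]
        rw [NN_univ D ψ A (hoff x hx g hg hgx)]
        exact div_self (hpos x hxΩ).ne'
      · push Not at h
        left
        simp only [hu]
        rw [NN_zero D ψ A h, zero_div]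
    · left
      simp only [hu]
      rw [hNK x hxΩ, zero_div]
  have huK : ∀ x ∈ D.K, u x = 0 := by
    intro x hx
    simp only [hu]
    rw [hNK x hx, zero_div]
  -- the circle valued function
  set U : E → ℂ := fun x => Complex.exp ((2 * Real.pi * u x : ℝ) * Complex.I) with hU
  have hU1 : ∀ x ∉ C1, U x = 1 := by
    intro x hx
    rcases hu01 x hx with h | h
    · simp [hU, h]
    · simp only [hU, h, mul_one]
      push_cast
      exact Complex.exp_two_pi_mul_I
  have hUc : Continuous U := by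
    rw [continuous_iff_continuousAt]
    intro x
    by_cases hx : x ∈ D.Ω
    · have := huc.continuousAt (D.isOpen.mem_nhds hx)
      simp only [hU]
      fun_prop
    · have hx1 : x ∉ C1 := hKC1 x hx
      have : U =ᶠ[𝓝 x] fun _ => 1 := by
        filter_upwards [hC1c.isClosed.isOpen_compl.mem_nhds hx1] with y hy using hU1 y hy
      exact (continuousAt_congr this).2 continuousAt_const
  obtain ⟨R, hR0, hR⟩ : ∃ R : ℝ, 0 < R ∧ ∀ x ∈ C1, ‖x‖ < R := by
    obtain ⟨R, hR⟩ := hC1c.isBounded.exists_norm_le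
    exact ⟨|R| + 1, by positivity, fun x hx => by
      have := hR x hx
      have := le_abs_self R
      linarith⟩
  have hfar : ∀ x, R ≤ ‖x‖ → x ∉ C1 := fun x hx h => absurd (hR x h) (not_lt.2 hx)
  obtain ⟨w, hw, hwU⟩ := hl U R hUc (fun x => by simp only [hU]; exact Complex.norm_exp_ofReal_mul_I _)
    fun x hx => hU1 x (hfar x hx)
  set v : E → ℝ := fun x => w x / (2 * Real.pi) with hv
  have hvc : Continuous v := hw.div_const _
  have hpi : (2 * Real.pi : ℝ) ≠ 0 := by positivity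
  have hvu : ∀ x, ∃ n : ℤ, v x - u x = n := by
    intro x
    have h := hwU x
    simp only [hU] at h
    obtain ⟨n, hn⟩ := Complex.exp_eq_exp_iff_exists_int.1 h
    refine ⟨n, ?_⟩
    have h2 : w x = 2 * Real.pi * u x + n * (2 * Real.pi) := by
      have := congrArg Complex.im hn
      simpa using this
    simp only [hv]
    rw [h2]
    field_simp
    ring
  have hvZ : ∀ x ∉ C1, ∃ n : ℤ, v x = n := by
    intro x hx
    obtain ⟨n, hn⟩ := hvu x
    rcases hu01 x hx with h | h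
    · exact ⟨n, by rw [h] at hn; linarith⟩
    · exact ⟨n + 1, by rw [h] at hn; push_cast; linarith⟩
  -- the value at infinity
  obtain ⟨x0, hx0⟩ : ∃ x0 : E, R < ‖x0‖ := by
    refine ⟨fun _ => R + 1, ?_⟩
    rw [pi_norm_const, Real.norm_eq_abs]
    exact lt_of_lt_of_le (by linarith) (le_abs_self _)
  have hinf : ∀ x, R < ‖x‖ → v x = v x0 := fun x hx =>
    const_int (far_preconnected hR0) hvc.continuousOn
      (fun y hy => hvZ y (hfar y (le_of_lt hy))) hx hx0
  obtain ⟨n0, hn0⟩ := hvZ x0 (hfar x0 hx0.le)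
  -- the value on the frontier
  have hfr : ∀ a ∈ frontier D.Ω, v a = v x0 := by
    intro a ha
    obtain ⟨d, hd, hline⟩ := h3 D a ha
    have hfK : ∀ y ∈ frontier D.Ω, y ∈ D.K := by
      intro y hy
      rw [D.isOpen.frontier_eq] at hy
      exact hy.2
    set P : Set E := range fun t : ℝ => a + t • d with hP
    have hPc : IsPreconnected P := isPreconnected_range (by fun_prop)
    have hPZ : ∀ y ∈ P, ∃ n : ℤ, v y = n := by
      rintro y ⟨t, rfl⟩
      exact hvZ _ (hKC1 _ (hfK _ (hline t)))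
    have hdn : 0 < ‖d‖ := norm_pos_iff.2 hd
    have hy : R < ‖a + ((‖a‖ + R + 1) / ‖d‖) • d‖ := by
      have h1 : ‖((‖a‖ + R + 1) / ‖d‖) • d‖ = ‖a‖ + R + 1 := by
        rw [norm_smul, Real.norm_eq_abs, abs_of_nonneg (by positivity)]
        field_simp
      have h2 : ‖((‖a‖ + R + 1) / ‖d‖) • d‖ ≤ ‖a + ((‖a‖ + R + 1) / ‖d‖) • d‖ + ‖a‖ := by
        have := norm_sub_le (a + ((‖a‖ + R + 1) / ‖d‖) • d) a
        rwa [add_sub_cancel_left] at this
      linarith
    rw [← hinf _ hy]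
    exact const_int hPc hvc.continuousOn hPZ ⟨0, by simp⟩ ⟨_, rfl⟩
  -- the value on the complement
  have hvK : ∀ x ∈ D.K, v x = v x0 := by
    set Z : Set E := {x | x ∈ D.K ∧ v x ≠ v x0} with hZ
    have hZo : IsOpen Z := by
      have : Z = interior D.K ∩ {x | v x ≠ v x0} := by
        ext x
        simp only [hZ, mem_setOf_eq, mem_inter_iff]
        constructor
        · rintro ⟨hx, hne⟩
          refine ⟨?_, hne⟩
          by_contra hi
          apply hne
          apply hfr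
          have : frontier D.K = frontier D.Ω := frontier_compl _
          rw [← this, hKcl.frontier_eq]
          exact ⟨hx, hi⟩
        · rintro ⟨hx, hne⟩
          exact ⟨interior_subset hx, hne⟩
      rw [this]
      exact isOpen_interior.inter (isOpen_ne_fun hvc continuous_const)
    have hZc : IsClosed Z := by
      have : Z = D.K ∩ {x | 1 ≤ |v x - v x0|} := by
        ext x
        simp only [hZ, mem_setOf_eq, mem_inter_iff]
        constructor
        · rintro ⟨hx, hne⟩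
          refine ⟨hx, ?_⟩
          obtain ⟨n, hn⟩ := hvZ x (hKC1 x hx)
          rw [hn, hn0] at hne ⊢
          have h : n - n0 ≠ 0 := by
            intro h
            apply hne
            rw [sub_eq_zero.1 h]
          have := Int.one_le_abs h
          exact_mod_cast this
        · rintro ⟨hx, hne⟩
          refine ⟨hx, ?_⟩
          intro h
          rw [h, sub_self, abs_zero] at hne
          linarith
      rw [this]
      exact hKcl.inter (isClosed_le continuous_const (by fun_prop))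
    rcases isClopen_iff.1 ⟨hZc, hZo⟩ with h | h
    · intro x hx
      by_contra hne
      have : x ∈ Z := ⟨hx, hne⟩
      rw [h] at this
      exact this
    · obtain ⟨y, hy⟩ := D.conn.nonempty
      have : y ∈ Z := by rw [h]; trivial
      exact absurd hy this.1
  -- the base point
  obtain ⟨k0, hk0, hψk0⟩ : ∃ k0 ∈ D.Ω, ψ k0 ≠ 0 := by
    obtain ⟨y, hy⟩ := D.conn.nonempty
    obtain ⟨γ, hγ, h⟩ := hcov y hy
    exact ⟨γ y, D.inv γ hγ y hy, h.ne'⟩
  have hbad1 : {g : D.Γ | v ((g : Aff3) k0) ≠ v x0}.Finite := by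
    by_contra hinf'
    have hI : {g : D.Γ | v ((g : Aff3) k0) ≠ v x0}.Infinite := hinf'
    set f := hI.natEmbedding with hf
    have hfin : Function.Injective (fun n => ((f n : D.Γ) : Aff3)) := by
      intro a b hab
      exact f.injective (Subtype.ext (Subtype.ext hab))
    have hbd : ∀ n, ((f n : D.Γ) : Aff3) k0 ∈ Metric.closedBall (0 : E) R := by
      intro n
      rw [mem_closedBall_zero_iff]
      by_contra hlt
      exact (f n).2 (hinf _ (not_le.1 hlt))
    obtain ⟨b, -, φ, hφ, hlim⟩ := (isCompact_closedBall (0 : E) R).tendsto_subseq hbd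
    have hcof : Tendsto (fun n => ((f (φ n) : D.Γ) : Aff3)) atTop cofinite := by
      have h1 := hfin.tendsto_cofinite
      rw [Nat.cofinite_eq_atTop] at h1
      exact h1.comp hφ.tendsto_atTop
    rcases h1 D (fun n => ((f (φ n) : D.Γ) : Aff3)) (fun _ => k0) k0 b (fun n => (f (φ n) : D.Γ).2)
      hcof tendsto_const_nhds hlim with h | h
    · exact h hk0
    · have hb1 : b ∉ C1 := hKC1 b h
      have hev : ∀ᶠ n in atTop, ((f (φ n) : D.Γ) : Aff3) k0 ∉ C1 :=
        hlim.eventually (hC1c.isClosed.isOpen_compl.mem_nhds hb1)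
      have hvl : Tendsto (fun n => |v (((f (φ n) : D.Γ) : Aff3) k0) - v x0|) atTop
          (𝓝 |v b - v x0|) :=
        ((hvc.tendsto b).comp hlim |>.sub_const _).abs
      rw [hvK b h, sub_self, abs_zero] at hvl
      have hge : ∀ᶠ n in atTop, (1 : ℝ) ≤ |v (((f (φ n) : D.Γ) : Aff3) k0) - v x0| := by
        filter_upwards [hev] with n hn
        obtain ⟨m, hm⟩ := hvZ _ hn
        have hne : v (((f (φ n) : D.Γ) : Aff3) k0) ≠ v x0 := (f (φ n)).2
        rw [hm, hn0] at hne ⊢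
        have h : m - n0 ≠ 0 := by
          intro h
          apply hne
          rw [sub_eq_zero.1 h]
        have := Int.one_le_abs h
        exact_mod_cast this
      have := ge_of_tendsto hvl hge
      linarith
  have hbad2 : {g : D.Γ | (g : Aff3) k0 ∈ C1}.Finite := by
    refine (fin_meet D (isCompact_singleton (x := k0)) hC1c (by simpa using hk0) hC1Ω).subset ?_
    intro g hg
    exact ⟨k0, rfl, hg⟩
  -- conclusion
  have hvuc : ∀ x ∈ D.Ω, v x - u x = v k0 - u k0 := by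
    intro x hx
    exact const_int (f := fun x => v x - u x) D.conn.isPreconnected
      (hvc.continuousOn.sub huc) (fun y _ => hvu y) hx hk0
  have hA1 : ∀ g : D.Γ, g ∈ A → u ((g : Aff3) k0) ≠ 0 := by
    intro g hg
    have hgx : (g : Aff3) k0 ∈ D.Ω := D.inv _ g.2 _ hk0
    have := NN_pos hC hCΩ h0 hs A hgx hg (by rwa [inv_apply_self])
    exact (div_pos this (hpos _ hgx)).ne'
  have hA0 : ∀ g : D.Γ, g ∉ A → (g : Aff3) k0 ∉ C1 → u ((g : Aff3) k0) = 0 := by
    intro g hg hgC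
    have : NN D ψ A ((g : Aff3) k0) = 0 := by
      apply NN_zero
      intro g' hg'
      by_contra hne
      have := hoff _ hgC g' hg' hne g hg
      rw [inv_apply_self] at this
      exact hψk0 this
    simp only [hu]
    rw [this, zero_div]
  have hval : ∀ g : D.Γ, v ((g : Aff3) k0) = v x0 →
      u ((g : Aff3) k0) = v x0 - (v k0 - u k0) := by
    intro g hg
    have := hvuc _ (D.inv _ g.2 _ hk0)
    rw [hg] at this
    linarith
  by_cases hq : v x0 - (v k0 - u k0) = 0
  · left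
    refine hbad1.subset ?_
    intro g hg hgv
    exact hA1 g hg ((hval g hgv).trans hq)
  · right
    refine (hbad1.union hbad2).subset ?_
    intro g hg
    by_contra hno
    simp only [mem_union, mem_setOf_eq, not_or, not_not] at hno
    exact hq ((hval g hno.1).symm.trans (hA0 g hg hno.2))

end

end Pool.Agent.Helper80.K3
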